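import Pool.Agent.H59.Per.Defs

/-! Module JAC1 of the distinct perimeters project (MP_588c6d_co): the four perimeters
`(a, y) ↦ |a - y| + |a - X j| + |y - X j|` have an invertible strict derivative somewhere. -/

set_option autoImplicit false

open Finset Filter Topology

namespace Pool.Agent.H63.Jac

open Pool.Agent.H59.Per

noncomputable def nn (x y : ℝ) : ℝ := Real.sqrt (x ^ 2 + y ^ 2)
/-- first coordinate of the unit vector -/
noncomputable def u1 (x y : ℝ) : ℝ := x / nn x y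
/-- second coordinate of the unit vector -/
noncomputable def u2 (x y : ℝ) : ℝ := y / nn x y

lemma sq_pos {x y : ℝ} (h : x ≠ 0 ∨ y ≠ 0) : 0 < x ^ 2 + y ^ 2 := by
  rcases h with h | h <;> positivity

lemma nn_pos {x y : ℝ} (h : x ≠ 0 ∨ y ≠ 0) : 0 < nn x y := Real.sqrt_pos.2 (sq_pos h)

lemma u_sq {x y : ℝ} (h : x ≠ 0 ∨ y ≠ 0) : u1 x y ^ 2 + u2 x y ^ 2 = 1 := by
  have h1 := nn_pos h
  have h2 : nn x y ^ 2 = x ^ 2 + y ^ 2 := Real.sq_sqrt (sq_pos h).le
  unfold u1 u2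
  rw [div_pow, div_pow, ← add_div, h2, div_self (sq_pos h).ne']

lemma nn_u1 {x y : ℝ} (h : x ≠ 0 ∨ y ≠ 0) : nn x y * u1 x y = x := by
  have h1 := nn_pos h
  unfold u1; field_simp

lemma nn_u2 {x y : ℝ} (h : x ≠ 0 ∨ y ≠ 0) : nn x y * u2 x y = y := by
  have h1 := nn_pos h
  unfold u2; field_simp

lemma nn_mul {x y t : ℝ} (ht : 0 < t) : nn (t * x) (t * y) = t * nn x y := by
  unfold nn
  rw [show (t * x) ^ 2 + (t * y) ^ 2 = t ^ 2 * (x ^ 2 + y ^ 2) by ring,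
    Real.sqrt_mul (by positivity), Real.sqrt_sq ht.le]

lemma nn_neg (x y : ℝ) : nn (-x) (-y) = nn x y := by
  unfold nn; congr 1; ring

lemma u1_neg (x y : ℝ) : u1 (-x) (-y) = - u1 x y := by
  unfold u1; rw [nn_neg]; ring

lemma u2_neg (x y : ℝ) : u2 (-x) (-y) = - u2 x y := by
  unfold u2; rw [nn_neg]; ring

lemma u1_mul {x y t : ℝ} (ht : 0 < t) : u1 (t * x) (t * y) = u1 x y := by
  unfold u1
  rw [nn_mul ht, mul_div_mul_left _ _ ht.ne']

lemma u2_mul {x y t : ℝ} (ht : 0 < t) : u2 (t * x) (t * y) = u2 x y := by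
  unfold u2
  rw [nn_mul ht, mul_div_mul_left _ _ ht.ne']

lemma u1_unit {x y : ℝ} (h : x ^ 2 + y ^ 2 = 1) : u1 x y = x := by
  unfold u1 nn; rw [h]; simp

lemma u2_unit {x y : ℝ} (h : x ^ 2 + y ^ 2 = 1) : u2 x y = y := by
  unfold u2 nn; rw [h]; simp

lemma contAt_nn {f g : ℝ → ℝ} {a : ℝ} (hf : ContinuousAt f a) (hg : ContinuousAt g a) :
    ContinuousAt (fun x => nn (f x) (g x)) a := by
  unfold nn
  exact ((hf.pow 2).add (hg.pow 2)).sqrt

lemma contAt_u1 {f g : ℝ → ℝ} {a : ℝ} (hf : ContinuousAt f a) (hg : ContinuousAt g a)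
    (h : f a ≠ 0 ∨ g a ≠ 0) : ContinuousAt (fun x => u1 (f x) (g x)) a :=
  hf.div (contAt_nn hf hg) (nn_pos h).ne'

lemma contAt_u2 {f g : ℝ → ℝ} {a : ℝ} (hf : ContinuousAt f a) (hg : ContinuousAt g a)
    (h : f a ≠ 0 ∨ g a ≠ 0) : ContinuousAt (fun x => u2 (f x) (g x)) a :=
  hg.div (contAt_nn hf hg) (nn_pos h).ne'

/-! ### the derivative -/

lemma deriv_nn (l1 l2 : (Fin 4 → ℝ) →L[ℝ] ℝ) (c d : ℝ) (u : Fin 4 → ℝ)
    (h : l1 u - c ≠ 0 ∨ l2 u - d ≠ 0) :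
    HasStrictFDerivAt (fun v => nn (l1 v - c) (l2 v - d))
      (u1 (l1 u - c) (l2 u - d) • l1 + u2 (l1 u - c) (l2 u - d) • l2) u := by
  have h1 : HasStrictFDerivAt (fun v => l1 v - c) l1 u := l1.hasStrictFDerivAt.sub_const c
  have h2 : HasStrictFDerivAt (fun v => l2 v - d) l2 u := l2.hasStrictFDerivAt.sub_const d
  have h3 := ((h1.pow 2).add (h2.pow 2)).sqrt (sq_pos h).ne'
  have h4 := nn_pos h
  refine h3.congr_fderiv ?_
  ext v
  simp only [_root_.add_apply, _root_.smul_apply, smul_eq_mul,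
    Pi.add_apply]
  unfold u1 u2
  change 0 < Real.sqrt _ at h4
  unfold nn
  simp only [nsmul_eq_mul]
  push_cast
  field_simp

/-- coordinate projections -/
def pj (i : Fin 4) : (Fin 4 → ℝ) →L[ℝ] ℝ := ContinuousLinearMap.proj i

lemma pj_apply (i : Fin 4) (v : Fin 4 → ℝ) : pj i v = v i := rfl

/-- the Jacobian matrix -/
noncomputable def Jm (X : Fin 4 → Pl) (a y : Pl) : Matrix (Fin 4) (Fin 4) ℝ :=
  fun j => ![u1 (a.1 - (X j).1) (a.2 - (X j).2) + u1 (a.1 - y.1) (a.2 - y.2),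
    u2 (a.1 - (X j).1) (a.2 - (X j).2) + u2 (a.1 - y.1) (a.2 - y.2),
    u1 (y.1 - (X j).1) (y.2 - (X j).2) - u1 (a.1 - y.1) (a.2 - y.2),
    u2 (y.1 - (X j).1) (y.2 - (X j).2) - u2 (a.1 - y.1) (a.2 - y.2)]

lemma ne_or {p q : Pl} (h : p ≠ q) : p.1 - q.1 ≠ 0 ∨ p.2 - q.2 ≠ 0 := by
  by_contra hc
  push Not at hc
  exact h (Prod.ext (by linarith [hc.1]) (by linarith [hc.2]))

lemma deriv_tau (X : Fin 4 → Pl) (u : Fin 4 → ℝ) (hu : u ∈ UU X) :
    HasStrictFDerivAt (tau X) (Matrix.toLin' (Jm X (aa u) (yy u))).toContinuousLinearMap u := by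
  obtain ⟨h0, hX⟩ := hu
  rw [hasStrictFDerivAt_pi']
  intro j
  have e1 := deriv_nn (pj 0 - pj 2) (pj 1 - pj 3) 0 0 u
    (by
      change (u 0 - u 2) - 0 ≠ 0 ∨ (u 1 - u 3) - 0 ≠ 0
      simpa [aa, yy] using ne_or h0)
  have e2 := deriv_nn (pj 0) (pj 1) (X j).1 (X j).2 u
    (by simpa [aa, yy, pj_apply] using ne_or (hX j).1)
  have e3 := deriv_nn (pj 2) (pj 3) (X j).1 (X j).2 u
    (by simpa [aa, yy, pj_apply] using ne_or (hX j).2)
  have e4 := (e1.add e2).add e3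
  refine (e4.congr_fderiv ?_).congr_of_eventuallyEq ?_
  · refine ContinuousLinearMap.ext fun v => ?_
    change (u1 ((u 0 - u 2) - 0) ((u 1 - u 3) - 0) * (v 0 - v 2) +
      u2 ((u 0 - u 2) - 0) ((u 1 - u 3) - 0) * (v 1 - v 3)) +
      (u1 (u 0 - (X j).1) (u 1 - (X j).2) * v 0 + u2 (u 0 - (X j).1) (u 1 - (X j).2) * v 1) +
      (u1 (u 2 - (X j).1) (u 3 - (X j).2) * v 2 + u2 (u 2 - (X j).1) (u 3 - (X j).2) * v 3) =
      ∑ i, Jm X (aa u) (yy u) j i * v i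
    simp [Fin.sum_univ_four, Jm, aa, yy]
    ring
  · refine Filter.Eventually.of_forall fun v => ?_
    change nn ((v 0 - v 2) - 0) ((v 1 - v 3) - 0) + nn (v 0 - (X j).1) (v 1 - (X j).2) +
      nn (v 2 - (X j).1) (v 3 - (X j).2) = _
    simp [tau, pr, dd, nn, aa, yy]

lemma surj_of_det {A : Matrix (Fin 4) (Fin 4) ℝ} (h : A.det ≠ 0) :
    Function.Surjective (Matrix.toLin' A).toContinuousLinearMap := by
  have h1 : IsUnit A := (Matrix.isUnit_iff_isUnit_det A).2 (isUnit_iff_ne_zero.2 h)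
  have h2 := Matrix.mulVec_surjective_iff_isUnit.2 h1
  intro v
  obtain ⟨w, hw⟩ := h2 v
  exact ⟨w, by simpa using hw⟩

/-- the assertion of JAC1 for one `X` -/
def Good (X : Fin 4 → Pl) : Prop :=
  ∃ u ∈ UU X, ∃ L : (Fin 4 → ℝ) →L[ℝ] (Fin 4 → ℝ),
    HasStrictFDerivAt (tau X) L u ∧ Function.Surjective L

lemma good_of_det {X : Fin 4 → Pl} {u : Fin 4 → ℝ} (hu : u ∈ UU X)
    (h : (Jm X (aa u) (yy u)).det ≠ 0) : Good X :=
  ⟨u, hu, _, deriv_tau X u hu, surj_of_det h⟩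

lemma good_perm {X : Fin 4 → Pl} (σ : Equiv.Perm (Fin 4)) (h : Good (X ∘ σ)) : Good X := by
  obtain ⟨u, hu, L, hL, hs⟩ := h
  refine ⟨u, ⟨hu.1, fun j => ?_⟩, ?_⟩
  · have := hu.2 (σ.symm j)
    simpa using this
  · let P : (Fin 4 → ℝ) →L[ℝ] (Fin 4 → ℝ) :=
      ContinuousLinearMap.pi fun j => ContinuousLinearMap.proj (σ.symm j)
    refine ⟨P.comp L, ?_, ?_⟩
    · have h1 := P.hasStrictFDerivAt.comp u hL
      refine h1.congr_of_eventuallyEq (Filter.Eventually.of_forall fun v => ?_)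
      funext j
      simp [P, tau]
    · intro v
      obtain ⟨w, hw⟩ := hs (fun j => v (σ j))
      refine ⟨w, ?_⟩
      funext j
      simp [P, hw]

/-! ### the limit matrix -/

/-- the matrix along `a = X 0 + ε e`, `y = X 1 + ε f` -/
noncomputable def Mm (X : Fin 4 → Pl) (e f : Pl) (t : ℝ) : Matrix (Fin 4) (Fin 4) ℝ :=
  ![![e.1 + u1 ((X 0).1 + t * e.1 - ((X 1).1 + t * f.1)) ((X 0).2 + t * e.2 - ((X 1).2 + t * f.2)),
      e.2 + u2 ((X 0).1 + t * e.1 - ((X 1).1 + t * f.1)) ((X 0).2 + t * e.2 - ((X 1).2 + t * f.2)),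
      u1 ((X 1).1 + t * f.1 - (X 0).1) ((X 1).2 + t * f.2 - (X 0).2) -
        u1 ((X 0).1 + t * e.1 - ((X 1).1 + t * f.1)) ((X 0).2 + t * e.2 - ((X 1).2 + t * f.2)),
      u2 ((X 1).1 + t * f.1 - (X 0).1) ((X 1).2 + t * f.2 - (X 0).2) -
        u2 ((X 0).1 + t * e.1 - ((X 1).1 + t * f.1)) ((X 0).2 + t * e.2 - ((X 1).2 + t * f.2))],
    ![u1 ((X 0).1 + t * e.1 - (X 1).1) ((X 0).2 + t * e.2 - (X 1).2) +
        u1 ((X 0).1 + t * e.1 - ((X 1).1 + t * f.1)) ((X 0).2 + t * e.2 - ((X 1).2 + t * f.2)),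
      u2 ((X 0).1 + t * e.1 - (X 1).1) ((X 0).2 + t * e.2 - (X 1).2) +
        u2 ((X 0).1 + t * e.1 - ((X 1).1 + t * f.1)) ((X 0).2 + t * e.2 - ((X 1).2 + t * f.2)),
      f.1 - u1 ((X 0).1 + t * e.1 - ((X 1).1 + t * f.1)) ((X 0).2 + t * e.2 - ((X 1).2 + t * f.2)),
      f.2 - u2 ((X 0).1 + t * e.1 - ((X 1).1 + t * f.1)) ((X 0).2 + t * e.2 - ((X 1).2 + t * f.2))],
    ![u1 ((X 0).1 + t * e.1 - (X 2).1) ((X 0).2 + t * e.2 - (X 2).2) +
        u1 ((X 0).1 + t * e.1 - ((X 1).1 + t * f.1)) ((X 0).2 + t * e.2 - ((X 1).2 + t * f.2)),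
      u2 ((X 0).1 + t * e.1 - (X 2).1) ((X 0).2 + t * e.2 - (X 2).2) +
        u2 ((X 0).1 + t * e.1 - ((X 1).1 + t * f.1)) ((X 0).2 + t * e.2 - ((X 1).2 + t * f.2)),
      u1 ((X 1).1 + t * f.1 - (X 2).1) ((X 1).2 + t * f.2 - (X 2).2) -
        u1 ((X 0).1 + t * e.1 - ((X 1).1 + t * f.1)) ((X 0).2 + t * e.2 - ((X 1).2 + t * f.2)),
      u2 ((X 1).1 + t * f.1 - (X 2).1) ((X 1).2 + t * f.2 - (X 2).2) -
        u2 ((X 0).1 + t * e.1 - ((X 1).1 + t * f.1)) ((X 0).2 + t * e.2 - ((X 1).2 + t * f.2))],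
    ![u1 ((X 0).1 + t * e.1 - (X 3).1) ((X 0).2 + t * e.2 - (X 3).2) +
        u1 ((X 0).1 + t * e.1 - ((X 1).1 + t * f.1)) ((X 0).2 + t * e.2 - ((X 1).2 + t * f.2)),
      u2 ((X 0).1 + t * e.1 - (X 3).1) ((X 0).2 + t * e.2 - (X 3).2) +
        u2 ((X 0).1 + t * e.1 - ((X 1).1 + t * f.1)) ((X 0).2 + t * e.2 - ((X 1).2 + t * f.2)),
      u1 ((X 1).1 + t * f.1 - (X 3).1) ((X 1).2 + t * f.2 - (X 3).2) -
        u1 ((X 0).1 + t * e.1 - ((X 1).1 + t * f.1)) ((X 0).2 + t * e.2 - ((X 1).2 + t * f.2)),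
      u2 ((X 1).1 + t * f.1 - (X 3).1) ((X 1).2 + t * f.2 - (X 3).2) -
        u2 ((X 0).1 + t * e.1 - ((X 1).1 + t * f.1)) ((X 0).2 + t * e.2 - ((X 1).2 + t * f.2))]]

lemma Jm_eq_Mm (X : Fin 4 → Pl) (e f : Pl) (he : e.1 ^ 2 + e.2 ^ 2 = 1)
    (hf : f.1 ^ 2 + f.2 ^ 2 = 1) {t : ℝ} (ht : 0 < t) :
    Jm X ((X 0).1 + t * e.1, (X 0).2 + t * e.2) ((X 1).1 + t * f.1, (X 1).2 + t * f.2) =
      Mm X e f t := by
  have h1 : u1 ((X 0).1 + t * e.1 - (X 0).1) ((X 0).2 + t * e.2 - (X 0).2) = e.1 := by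
    rw [add_sub_cancel_left, add_sub_cancel_left, u1_mul ht, u1_unit he]
  have h2 : u2 ((X 0).1 + t * e.1 - (X 0).1) ((X 0).2 + t * e.2 - (X 0).2) = e.2 := by
    rw [add_sub_cancel_left, add_sub_cancel_left, u2_mul ht, u2_unit he]
  have h3 : u1 ((X 1).1 + t * f.1 - (X 1).1) ((X 1).2 + t * f.2 - (X 1).2) = f.1 := by
    rw [add_sub_cancel_left, add_sub_cancel_left, u1_mul ht, u1_unit hf]
  have h4 : u2 ((X 1).1 + t * f.1 - (X 1).1) ((X 1).2 + t * f.2 - (X 1).2) = f.2 := by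
    rw [add_sub_cancel_left, add_sub_cancel_left, u2_mul ht, u2_unit hf]
  funext i
  fin_cases i
  · simp only [Jm, Mm, Fin.zero_eta, Matrix.cons_val_zero, h1, h2]
  · simp only [Jm, Mm, Fin.mk_one, Matrix.cons_val_one, h3, h4]
    rfl
  · rfl
  · rfl

lemma cont_Mm (X : Fin 4 → Pl) (hX : Function.Injective X) (e f : Pl) :
    ContinuousAt (Mm X e f) 0 := by
  have hne : ∀ i j : Fin 4, i ≠ j → (X i).1 - (X j).1 ≠ 0 ∨ (X i).2 - (X j).2 ≠ 0 :=
    fun i j h => ne_or (fun hc => h (hX hc))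
  have k1 : ContinuousAt (fun t : ℝ => (X 0).1 + t * e.1) 0 := by fun_prop
  have k2 : ContinuousAt (fun t : ℝ => (X 0).2 + t * e.2) 0 := by fun_prop
  have k3 : ContinuousAt (fun t : ℝ => (X 1).1 + t * f.1) 0 := by fun_prop
  have k4 : ContinuousAt (fun t : ℝ => (X 1).2 + t * f.2) 0 := by fun_prop
  have c1 : ContinuousAt (fun t : ℝ => u1 ((X 0).1 + t * e.1 - ((X 1).1 + t * f.1))
      ((X 0).2 + t * e.2 - ((X 1).2 + t * f.2))) 0 :=
    contAt_u1 (k1.sub k3) (k2.sub k4) (by simpa using hne 0 1 (by decide))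
  have c2 : ContinuousAt (fun t : ℝ => u2 ((X 0).1 + t * e.1 - ((X 1).1 + t * f.1))
      ((X 0).2 + t * e.2 - ((X 1).2 + t * f.2))) 0 :=
    contAt_u2 (k1.sub k3) (k2.sub k4) (by simpa using hne 0 1 (by decide))
  have d1 : ∀ j : Fin 4, j ≠ 0 → ContinuousAt (fun t : ℝ => u1 ((X 0).1 + t * e.1 - (X j).1)
      ((X 0).2 + t * e.2 - (X j).2)) 0 := fun j hj =>
    contAt_u1 (k1.sub continuousAt_const) (k2.sub continuousAt_const)
      (by simpa using hne 0 j hj.symm)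
  have d2 : ∀ j : Fin 4, j ≠ 0 → ContinuousAt (fun t : ℝ => u2 ((X 0).1 + t * e.1 - (X j).1)
      ((X 0).2 + t * e.2 - (X j).2)) 0 := fun j hj =>
    contAt_u2 (k1.sub continuousAt_const) (k2.sub continuousAt_const)
      (by simpa using hne 0 j hj.symm)
  have g1 : ∀ j : Fin 4, j ≠ 1 → ContinuousAt (fun t : ℝ => u1 ((X 1).1 + t * f.1 - (X j).1)
      ((X 1).2 + t * f.2 - (X j).2)) 0 := fun j hj =>
    contAt_u1 (k3.sub continuousAt_const) (k4.sub continuousAt_const)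
      (by simpa using hne 1 j hj.symm)
  have g2 : ∀ j : Fin 4, j ≠ 1 → ContinuousAt (fun t : ℝ => u2 ((X 1).1 + t * f.1 - (X j).1)
      ((X 1).2 + t * f.2 - (X j).2)) 0 := fun j hj =>
    contAt_u2 (k3.sub continuousAt_const) (k4.sub continuousAt_const)
      (by simpa using hne 1 j hj.symm)
  have cc : ∀ c : ℝ, ContinuousAt (fun _ : ℝ => c) 0 := fun c => continuousAt_const
  unfold Mm
  refine continuousAt_pi.2 fun i => continuousAt_pi.2 fun j => ?_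
  fin_cases i
  · fin_cases j
    · exact (cc _).add c1
    · exact (cc _).add c2
    · exact (g1 0 (by decide)).sub c1
    · exact (g2 0 (by decide)).sub c2
  · fin_cases j
    · exact (d1 1 (by decide)).add c1
    · exact (d2 1 (by decide)).add c2
    · exact (cc _).sub c1
    · exact (cc _).sub c2
  · fin_cases j
    · exact (d1 2 (by decide)).add c1
    · exact (d2 2 (by decide)).add c2
    · exact (g1 2 (by decide)).sub c1
    · exact (g2 2 (by decide)).sub c2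
  · fin_cases j
    · exact (d1 3 (by decide)).add c1
    · exact (d2 3 (by decide)).add c2
    · exact (g1 3 (by decide)).sub c1
    · exact (g2 3 (by decide)).sub c2

lemma good_of_limit (X : Fin 4 → Pl) (hX : Function.Injective X) (e f : Pl)
    (he : e.1 ^ 2 + e.2 ^ 2 = 1) (hf : f.1 ^ 2 + f.2 ^ 2 = 1) (h : (Mm X e f 0).det ≠ 0) :
    Good X := by
  have h1 : ContinuousAt (fun t => (Mm X e f t).det) 0 :=
    (Continuous.matrix_det continuous_id).continuousAt.comp (cont_Mm X hX e f)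
  have h2 : ∀ᶠ t in 𝓝[>] (0 : ℝ), (Mm X e f t).det ≠ 0 :=
    (h1.eventually_ne h).filter_mono nhdsWithin_le_nhds
  have k1 : ContinuousAt (fun t : ℝ => (((X 0).1 + t * e.1, (X 0).2 + t * e.2) : Pl)) 0 := by
    fun_prop
  have k2 : ContinuousAt (fun t : ℝ => (((X 1).1 + t * f.1, (X 1).2 + t * f.2) : Pl)) 0 := by
    fun_prop
  have h3 : ∀ᶠ t in 𝓝[>] (0 : ℝ), (((X 0).1 + t * e.1, (X 0).2 + t * e.2) : Pl) ≠
      ((X 1).1 + t * f.1, (X 1).2 + t * f.2) := by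
    refine Filter.Eventually.filter_mono nhdsWithin_le_nhds ?_
    have := (k1.prodMk k2).eventually
      (isOpen_ne_fun continuous_fst continuous_snd |>.mem_nhds
        (show _ ∈ {p : Pl × Pl | p.1 ≠ p.2} from ?_))
    · exact this
    · simp only [zero_mul, add_zero, Set.mem_ofPred_eq]
      exact fun hc => absurd (hX hc) (by decide)
  have h4 : ∀ j : Fin 4, ∀ᶠ t in 𝓝[>] (0 : ℝ),
      (((X 0).1 + t * e.1, (X 0).2 + t * e.2) : Pl) ≠ X j := by
    intro j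
    by_cases hj : j = 0
    · subst hj
      filter_upwards [self_mem_nhdsWithin] with t ht hc
      have ht' : 0 < t := ht
      have e1 : (X 0).1 + t * e.1 = (X 0).1 := congrArg Prod.fst hc
      have e2 : (X 0).2 + t * e.2 = (X 0).2 := congrArg Prod.snd hc
      have e3 : t * e.1 = 0 := by linarith
      have e4 : t * e.2 = 0 := by linarith
      have e5 : e.1 = 0 := by
        rcases mul_eq_zero.1 e3 with h | h
        · linarith
        · exact h
      have e6 : e.2 = 0 := by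
        rcases mul_eq_zero.1 e4 with h | h
        · linarith
        · exact h
      rw [e5, e6] at he
      norm_num at he
    · refine Filter.Eventually.filter_mono nhdsWithin_le_nhds ?_
      refine k1.eventually_ne ?_
      simp only [zero_mul, add_zero]
      exact fun hc => hj (hX hc).symm
  have h5 : ∀ j : Fin 4, ∀ᶠ t in 𝓝[>] (0 : ℝ),
      (((X 1).1 + t * f.1, (X 1).2 + t * f.2) : Pl) ≠ X j := by
    intro j
    by_cases hj : j = 1
    · subst hj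
      filter_upwards [self_mem_nhdsWithin] with t ht hc
      have ht' : 0 < t := ht
      have e1 : (X 1).1 + t * f.1 = (X 1).1 := congrArg Prod.fst hc
      have e2 : (X 1).2 + t * f.2 = (X 1).2 := congrArg Prod.snd hc
      have e3 : t * f.1 = 0 := by linarith
      have e4 : t * f.2 = 0 := by linarith
      have e5 : f.1 = 0 := by
        rcases mul_eq_zero.1 e3 with h | h
        · linarith
        · exact h
      have e6 : f.2 = 0 := by
        rcases mul_eq_zero.1 e4 with h | h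
        · linarith
        · exact h
      rw [e5, e6] at hf
      norm_num at hf
    · refine Filter.Eventually.filter_mono nhdsWithin_le_nhds ?_
      refine k2.eventually_ne ?_
      simp only [zero_mul, add_zero]
      exact fun hc => hj (hX hc).symm
  obtain ⟨t, ht⟩ := ((h2.and h3).and ((Filter.eventually_all.2 h4).and
    ((Filter.eventually_all.2 h5).and self_mem_nhdsWithin))).exists
  obtain ⟨⟨t1, t2⟩, t3, t4, t5⟩ := ht
  refine good_of_det (u := ![(X 0).1 + t * e.1, (X 0).2 + t * e.2, (X 1).1 + t * f.1,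
    (X 1).2 + t * f.2]) ?_ ?_
  · refine ⟨?_, fun j => ⟨?_, ?_⟩⟩
    · simpa [aa, yy] using t2
    · simpa [aa] using t3 j
    · simpa [yy] using t4 j
  · have : Jm X ((X 0).1 + t * e.1, (X 0).2 + t * e.2) ((X 1).1 + t * f.1, (X 1).2 + t * f.2) =
      Mm X e f t := Jm_eq_Mm X e f he hf t5
    simp only [aa, yy, Matrix.cons_val_zero, Matrix.cons_val_one, Matrix.cons_val]
    rw [this]
    exact t1

/-- explicit form of the limit matrix -/
noncomputable def M0 (e1 e2 f1 f2 E1 E2 a1 a2 b1 b2 c1 c2 d1 d2 : ℝ) : Matrix (Fin 4) (Fin 4) ℝ :=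
  !![e1 + E1, e2 + E2, -E1 - E1, -E2 - E2;
     E1 + E1, E2 + E2, f1 - E1, f2 - E2;
     a1 + E1, a2 + E2, b1 - E1, b2 - E2;
     c1 + E1, c2 + E2, d1 - E1, d2 - E2]

lemma det_M0 (e1 e2 f1 f2 E1 E2 a1 a2 b1 b2 c1 c2 d1 d2 : ℝ) :
    (M0 e1 e2 f1 f2 E1 E2 a1 a2 b1 b2 c1 c2 d1 d2).det -
      (M0 (-e1) (-e2) f1 f2 E1 E2 a1 a2 b1 b2 c1 c2 d1 d2).det -
      (M0 e1 e2 (-f1) (-f2) E1 E2 a1 a2 b1 b2 c1 c2 d1 d2).det +
      (M0 (-e1) (-e2) (-f1) (-f2) E1 E2 a1 a2 b1 b2 c1 c2 d1 d2).det =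
    4 * ((e1 * (c2 + E2) - e2 * (c1 + E1)) * (f1 * (b2 - E2) - f2 * (b1 - E1)) -
      (e1 * (a2 + E2) - e2 * (a1 + E1)) * (f1 * (d2 - E2) - f2 * (d1 - E1))) := by
  unfold M0
  simp [Matrix.det_succ_row_zero, Fin.sum_univ_succ, Fin.succAbove]
  ring

/-- coordinates of the unit vector from `X j` to `X i` -/
noncomputable def U1 (X : Fin 4 → Pl) (i j : Fin 4) : ℝ :=
  u1 ((X i).1 - (X j).1) ((X i).2 - (X j).2)
noncomputable def U2 (X : Fin 4 → Pl) (i j : Fin 4) : ℝ :=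
  u2 ((X i).1 - (X j).1) ((X i).2 - (X j).2)
noncomputable def UN (X : Fin 4 → Pl) (i j : Fin 4) : ℝ :=
  nn ((X i).1 - (X j).1) ((X i).2 - (X j).2)

lemma Mm_zero (X : Fin 4 → Pl) (e f : Pl) :
    Mm X e f 0 = M0 e.1 e.2 f.1 f.2 (U1 X 0 1) (U2 X 0 1) (U1 X 0 2) (U2 X 0 2)
      (U1 X 1 2) (U2 X 1 2) (U1 X 0 3) (U2 X 0 3) (U1 X 1 3) (U2 X 1 3) := by
  have h1 : u1 ((X 1).1 - (X 0).1) ((X 1).2 - (X 0).2) =
      - u1 ((X 0).1 - (X 1).1) ((X 0).2 - (X 1).2) := by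
    rw [← u1_neg]; congr 1 <;> ring
  have h2 : u2 ((X 1).1 - (X 0).1) ((X 1).2 - (X 0).2) =
      - u2 ((X 0).1 - (X 1).1) ((X 0).2 - (X 1).2) := by
    rw [← u2_neg]; congr 1 <;> ring
  unfold Mm M0 U1 U2
  simp only [zero_mul, add_zero, h1, h2]
  rfl

lemma tensor (X : Fin 4 → Pl) (hX : Function.Injective X) (hG : ¬ Good X) (e1 e2 f1 f2 : ℝ)
    (he : e1 ^ 2 + e2 ^ 2 = 1) (hf : f1 ^ 2 + f2 ^ 2 = 1) :
    (e1 * (U2 X 0 3 + U2 X 0 1) - e2 * (U1 X 0 3 + U1 X 0 1)) *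
      (f1 * (U2 X 1 2 - U2 X 0 1) - f2 * (U1 X 1 2 - U1 X 0 1)) =
    (e1 * (U2 X 0 2 + U2 X 0 1) - e2 * (U1 X 0 2 + U1 X 0 1)) *
      (f1 * (U2 X 1 3 - U2 X 0 1) - f2 * (U1 X 1 3 - U1 X 0 1)) := by
  have key : ∀ e1 e2 f1 f2 : ℝ, e1 ^ 2 + e2 ^ 2 = 1 → f1 ^ 2 + f2 ^ 2 = 1 →
      (M0 e1 e2 f1 f2 (U1 X 0 1) (U2 X 0 1) (U1 X 0 2) (U2 X 0 2)
        (U1 X 1 2) (U2 X 1 2) (U1 X 0 3) (U2 X 0 3) (U1 X 1 3) (U2 X 1 3)).det = 0 := by
    intro e1 e2 f1 f2 he hf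
    by_contra hc
    apply hG
    refine good_of_limit X hX (e1, e2) (f1, f2) he hf ?_
    rw [Mm_zero]
    exact hc
  have h := det_M0 e1 e2 f1 f2 (U1 X 0 1) (U2 X 0 1) (U1 X 0 2) (U2 X 0 2)
        (U1 X 1 2) (U2 X 1 2) (U1 X 0 3) (U2 X 0 3) (U1 X 1 3) (U2 X 1 3)
  rw [key _ _ _ _ he hf, key _ _ _ _ (by simpa using he) hf, key _ _ _ _ he (by simpa using hf),
    key _ _ _ _ (by simpa using he) (by simpa using hf)] at h
  linarith

/-- abstract form of the non-collinear case -/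
lemma noncol {e1 e2 a1 a2 b1 b2 c1 c2 d1 d2 l r s r' s' : ℝ}
    (he : e1 ^ 2 + e2 ^ 2 = 1) (ha : a1 ^ 2 + a2 ^ 2 = 1) (hb : b1 ^ 2 + b2 ^ 2 = 1)
    (hc : c1 ^ 2 + c2 ^ 2 = 1) (hd : d1 ^ 2 + d2 ^ 2 = 1)
    (hl : 0 < l) (hr : 0 < r) (hs : 0 < s) (hr' : 0 < r') (hs' : 0 < s')
    (x1 : l * e1 = r * a1 - s * b1) (x2 : l * e2 = r * a2 - s * b2)
    (y1 : l * e1 = r' * c1 - s' * d1) (y2 : l * e2 = r' * c2 - s' * d2)
    (hcr : e1 * a2 - e2 * a1 ≠ 0)
    (t : ∀ p1 p2 q1 q2 : ℝ, p1 ^ 2 + p2 ^ 2 = 1 → q1 ^ 2 + q2 ^ 2 = 1 →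
      (p1 * (c2 + e2) - p2 * (c1 + e1)) * (q1 * (b2 - e2) - q2 * (b1 - e1)) =
      (p1 * (a2 + e2) - p2 * (a1 + e1)) * (q1 * (d2 - e2) - q2 * (d1 - e1))) :
    r = r' ∧ a1 = c1 ∧ a2 = c2 := by
  have t11 := t 0 1 0 1 (by norm_num) (by norm_num)
  have t12 := t 0 1 1 0 (by norm_num) (by norm_num)
  have t21 := t 1 0 0 1 (by norm_num) (by norm_num)
  have t22 := t 1 0 1 0 (by norm_num) (by norm_num)
  simp only [zero_mul, one_mul, zero_sub, sub_zero] at t11 t12 t21 t22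
  -- s * (e x b) = r * (e x a)
  have hcb : s * (e1 * b2 - e2 * b1) = r * (e1 * a2 - e2 * a1) := by
    linear_combination e1 * x2 - e2 * x1
  have hcb' : e1 * b2 - e2 * b1 ≠ 0 := by
    intro h0
    rw [h0, mul_zero] at hcb
    exact (mul_ne_zero hr.ne' hcr) hcb.symm
  -- norms
  set A1 := a1 + e1 with hA1
  set A2 := a2 + e2 with hA2
  set B1 := b1 - e1 with hB1
  set B2 := b2 - e2 with hB2
  have hBne : B1 ≠ 0 ∨ B2 ≠ 0 := by
    by_contra hc
    push Not at hc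
    apply hcb'
    have e1' : b1 = e1 := by linarith [hc.1]
    have e2' : b2 = e2 := by linarith [hc.2]
    rw [e1', e2']; ring
  have hAne : A1 ≠ 0 ∨ A2 ≠ 0 := by
    by_contra hc
    push Not at hc
    apply hcr
    have e1' : a1 = -e1 := by linarith [hc.1]
    have e2' : a2 = -e2 := by linarith [hc.2]
    rw [e1', e2']; ring
  have hB2pos : 0 < B1 ^ 2 + B2 ^ 2 := sq_pos hBne
  have hA2pos : 0 < A1 ^ 2 + A2 ^ 2 := sq_pos hAne
  -- lambda
  obtain ⟨lam, hl1, hl2, hl3, hl4⟩ : ∃ lam : ℝ, c1 + e1 = lam * A1 ∧ c2 + e2 = lam * A2 ∧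
      d1 - e1 = lam * B1 ∧ d2 - e2 = lam * B2 := by
    refine ⟨((c1 + e1) * A1 + (c2 + e2) * A2) / (A1 ^ 2 + A2 ^ 2), ?_, ?_, ?_, ?_⟩
    · rw [div_mul_eq_mul_div, eq_div_iff hA2pos.ne']
      -- (c+e) parallel to A
      have hpar : (c1 + e1) * A2 = (c2 + e2) * A1 := by
        rcases hBne with h | h
        · apply mul_right_cancel₀ h
          linear_combination A2 * t11 + A1 * t21
        · apply mul_right_cancel₀ h
          linear_combination -A2 * t12 - A1 * t22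
      linear_combination A2 * hpar
    · rw [div_mul_eq_mul_div, eq_div_iff hA2pos.ne']
      have hpar : (c1 + e1) * A2 = (c2 + e2) * A1 := by
        rcases hBne with h | h
        · apply mul_right_cancel₀ h
          linear_combination A2 * t11 + A1 * t21
        · apply mul_right_cancel₀ h
          linear_combination -A2 * t12 - A1 * t22
      linear_combination - A1 * hpar
    · rw [div_mul_eq_mul_div, eq_div_iff hA2pos.ne']
      linear_combination -A1 * t11 + A2 * t21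
    · rw [div_mul_eq_mul_div, eq_div_iff hA2pos.ne']
      linear_combination A1 * t12 - A2 * t22
  have hlam : lam * (lam - 1) = 0 := by
    have h1 : c1 = lam * A1 - e1 := by linarith
    have h2 : c2 = lam * A2 - e2 := by linarith
    have h3 : A1 ^ 2 + A2 ^ 2 = 2 * (A1 * e1 + A2 * e2) := by
      rw [hA1, hA2]; linear_combination ha - he
    have h4 : lam * (lam - 1) * (A1 ^ 2 + A2 ^ 2) = 0 := by
      rw [h1, h2] at hc
      linear_combination hc - he - lam * h3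
    rcases mul_eq_zero.1 h4 with h | h
    · exact h
    · exact absurd h hA2pos.ne'
  rcases mul_eq_zero.1 hlam with h | h
  · exfalso
    rw [h] at hl1 hl2 hl3 hl4
    have h1 : (l + r' + s') * e1 = 0 := by
      linear_combination y1 + r' * hl1 - s' * hl3
    have h2 : (l + r' + s') * e2 = 0 := by
      linear_combination y2 + r' * hl2 - s' * hl4
    have hp : l + r' + s' ≠ 0 := by positivity
    have h3 := (mul_eq_zero.1 h1).resolve_left hp
    have h4 := (mul_eq_zero.1 h2).resolve_left hp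
    rw [h3, h4] at he
    norm_num at he
  · have h1 : lam = 1 := by linarith
    rw [h1] at hl1 hl2 hl3 hl4
    have e1' : c1 = a1 := by linarith
    have e2' : c2 = a2 := by linarith
    have e3' : d1 = b1 := by linarith
    have e4' : d2 = b2 := by linarith
    refine ⟨?_, e1'.symm, e2'.symm⟩
    rw [e1', e3'] at y1
    rw [e2', e4'] at y2
    -- (r - r') a = (s - s') b ; a x b ≠ 0
    have hab : a1 * b2 - a2 * b1 ≠ 0 := by
      intro h0
      have : l * (e1 * b2 - e2 * b1) = 0 := by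
        linear_combination b2 * x1 - b1 * x2 + r * h0
      exact (mul_ne_zero hl.ne' hcb') this
    have h5 : (r - r') * (a1 * b2 - a2 * b1) = 0 := by
      linear_combination b2 * (y1 - x1) - b1 * (y2 - x2)
    have := (mul_eq_zero.1 h5).resolve_right hab
    linarith

lemma good_noncol (X : Fin 4 → Pl) (hX : Function.Injective X)
    (h : ((X 0).1 - (X 1).1) * ((X 0).2 - (X 2).2) - ((X 0).2 - (X 1).2) * ((X 0).1 - (X 2).1) ≠ 0) :
    Good X := by
  by_contra hG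
  have hne : ∀ i j : Fin 4, i ≠ j → (X i).1 - (X j).1 ≠ 0 ∨ (X i).2 - (X j).2 ≠ 0 :=
    fun i j h => ne_or (fun hc => h (hX hc))
  have sq : ∀ i j : Fin 4, i ≠ j → U1 X i j ^ 2 + U2 X i j ^ 2 = 1 := fun i j h => u_sq (hne i j h)
  have m1 : ∀ i j : Fin 4, i ≠ j → UN X i j * U1 X i j = (X i).1 - (X j).1 :=
    fun i j h => nn_u1 (hne i j h)
  have m2 : ∀ i j : Fin 4, i ≠ j → UN X i j * U2 X i j = (X i).2 - (X j).2 :=
    fun i j h => nn_u2 (hne i j h)
  have ps : ∀ i j : Fin 4, i ≠ j → 0 < UN X i j := fun i j h => nn_pos (hne i j h)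
  have hcr : U1 X 0 1 * U2 X 0 2 - U2 X 0 1 * U1 X 0 2 ≠ 0 := by
    intro h0
    apply h
    rw [← m1 0 1 (by decide), ← m1 0 2 (by decide), ← m2 0 1 (by decide), ← m2 0 2 (by decide)]
    linear_combination (UN X 0 1 * UN X 0 2) * h0
  obtain ⟨k1, k2, k3⟩ := noncol (sq 0 1 (by decide)) (sq 0 2 (by decide)) (sq 1 2 (by decide))
    (sq 0 3 (by decide)) (sq 1 3 (by decide)) (ps 0 1 (by decide)) (ps 0 2 (by decide))
    (ps 1 2 (by decide)) (ps 0 3 (by decide)) (ps 1 3 (by decide))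
    (by rw [m1 0 1 (by decide), m1 0 2 (by decide), m1 1 2 (by decide)]; ring)
    (by rw [m2 0 1 (by decide), m2 0 2 (by decide), m2 1 2 (by decide)]; ring)
    (by rw [m1 0 1 (by decide), m1 0 3 (by decide), m1 1 3 (by decide)]; ring)
    (by rw [m2 0 1 (by decide), m2 0 3 (by decide), m2 1 3 (by decide)]; ring)
    hcr (fun p1 p2 q1 q2 hp hq => tensor X hX hG p1 p2 q1 q2 hp hq)
  have e1 := m1 0 2 (by decide)
  have e2 := m2 0 2 (by decide)
  have e3 := m1 0 3 (by decide)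
  have e4 := m2 0 3 (by decide)
  rw [k1, k2, e3] at e1
  rw [k1, k3, e4] at e2
  have : X 2 = X 3 := Prod.ext (by linarith) (by linarith)
  exact absurd (hX this) (by decide)

lemma good_col (X : Fin 4 → Pl) (hX : Function.Injective X) (A d : Pl) (t : Fin 4 → ℝ)
    (hd : d.1 ≠ 0 ∨ d.2 ≠ 0) (hXt : ∀ j, X j = (A.1 + t j * d.1, A.2 + t j * d.2))
    (h1 : t 2 < t 0) (h2 : t 0 < t 1) (h3 : t 1 < t 3) : Good X := by
  by_contra hG
  have pos : ∀ i j : Fin 4, t j < t i → U1 X i j = u1 d.1 d.2 ∧ U2 X i j = u2 d.1 d.2 := by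
    intro i j hij
    unfold U1 U2
    rw [hXt i, hXt j]
    have e1 : (A.1 + t i * d.1) - (A.1 + t j * d.1) = (t i - t j) * d.1 := by ring
    have e2 : (A.2 + t i * d.2) - (A.2 + t j * d.2) = (t i - t j) * d.2 := by ring
    simp only [e1, e2]
    exact ⟨u1_mul (sub_pos.2 hij), u2_mul (sub_pos.2 hij)⟩
  have neg : ∀ i j : Fin 4, t i < t j → U1 X i j = - u1 d.1 d.2 ∧ U2 X i j = - u2 d.1 d.2 := by
    intro i j hij
    unfold U1 U2
    rw [hXt i, hXt j]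
    have e1 : (A.1 + t i * d.1) - (A.1 + t j * d.1) = (t j - t i) * (-d.1) := by ring
    have e2 : (A.2 + t i * d.2) - (A.2 + t j * d.2) = (t j - t i) * (-d.2) := by ring
    simp only [e1, e2]
    rw [u1_mul (sub_pos.2 hij), u2_mul (sub_pos.2 hij), u1_neg, u2_neg]
    exact ⟨rfl, rfl⟩
  obtain ⟨a1, a2⟩ := neg 0 1 h2
  obtain ⟨b1, b2⟩ := pos 0 2 h1
  obtain ⟨c1, c2⟩ := pos 1 2 (h1.trans h2)
  obtain ⟨d1, d2⟩ := neg 0 3 (h2.trans h3)
  obtain ⟨e1, e2⟩ := neg 1 3 h3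
  have hu := u_sq hd
  have t1 := tensor X hX hG 0 1 0 1 (by norm_num) (by norm_num)
  have t2 := tensor X hX hG 1 0 1 0 (by norm_num) (by norm_num)
  rw [a1, a2, b1, b2, c1, c2, d1, d2, e1, e2] at t1 t2
  nlinarith [t1, t2, hu]

theorem jac1 : JAC1 := by
  intro X hX
  change Good X
  by_cases h1 : ((X 0).1 - (X 1).1) * ((X 0).2 - (X 2).2) -
      ((X 0).2 - (X 1).2) * ((X 0).1 - (X 2).1) = 0
  swap
  · exact good_noncol X hX h1
  by_cases h2 : ((X 0).1 - (X 1).1) * ((X 0).2 - (X 3).2) -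
      ((X 0).2 - (X 1).2) * ((X 0).1 - (X 3).1) = 0
  swap
  · refine good_perm (Equiv.swap 2 3) (good_noncol _ (hX.comp (Equiv.injective _)) ?_)
    have e0 : (Equiv.swap (2 : Fin 4) 3) 0 = 0 := by decide
    have e1 : (Equiv.swap (2 : Fin 4) 3) 1 = 1 := by decide
    have e2 : (Equiv.swap (2 : Fin 4) 3) 2 = 3 := by decide
    simp only [Function.comp_apply, e0, e1, e2]
    exact h2
  -- collinear
  have hne : (X 1).1 - (X 0).1 ≠ 0 ∨ (X 1).2 - (X 0).2 ≠ 0 :=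
    ne_or (fun hc => absurd (hX hc) (by decide))
  set d : Pl := ((X 1).1 - (X 0).1, (X 1).2 - (X 0).2) with hd
  have hd' : d.1 ≠ 0 ∨ d.2 ≠ 0 := hne
  have hdp := sq_pos hd'
  let t : Fin 4 → ℝ := fun j =>
    (((X j).1 - (X 0).1) * d.1 + ((X j).2 - (X 0).2) * d.2) / (d.1 ^ 2 + d.2 ^ 2)
  have hcross : ∀ j, ((X j).1 - (X 0).1) * d.2 = ((X j).2 - (X 0).2) * d.1 := by
    intro j
    fin_cases j
    · simp [hd]
    · simp [hd]; ring
    · simp only [hd]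
      change ((X 2).1 - (X 0).1) * ((X 1).2 - (X 0).2) = ((X 2).2 - (X 0).2) * ((X 1).1 - (X 0).1)
      linear_combination - h1
    · simp only [hd]
      change ((X 3).1 - (X 0).1) * ((X 1).2 - (X 0).2) = ((X 3).2 - (X 0).2) * ((X 1).1 - (X 0).1)
      linear_combination - h2
  have hXt : ∀ j, X j = ((X 0).1 + t j * d.1, (X 0).2 + t j * d.2) := by
    intro j
    have hc := hcross j
    refine Prod.ext ?_ ?_
    · simp only [t]
      rw [div_mul_eq_mul_div, ← sub_eq_iff_eq_add', eq_div_iff hdp.ne']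
      linear_combination d.2 * hc
    · simp only [t]
      rw [div_mul_eq_mul_div, ← sub_eq_iff_eq_add', eq_div_iff hdp.ne']
      linear_combination -d.1 * hc
  have htinj : Function.Injective t := by
    intro i j hij
    apply hX
    rw [hXt i, hXt j, hij]
  set τ := Tuple.sort t with hτ
  have hmono : StrictMono (t ∘ τ) :=
    (Tuple.monotone_sort t).strictMono_of_injective (htinj.comp τ.injective)
  let π : Equiv.Perm (Fin 4) := Equiv.swap 0 1 * Equiv.swap 1 2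
  have p0 : π 0 = 1 := by decide
  have p1 : π 1 = 2 := by decide
  have p2 : π 2 = 0 := by decide
  have p3 : π 3 = 3 := by decide
  refine good_perm (π.trans τ) (good_col _ (hX.comp (Equiv.injective _)) (X 0) d
    (fun j => t (τ (π j))) hd' (fun j => ?_) ?_ ?_ ?_)
  · simp only [Function.comp_apply, Equiv.trans_apply]
    exact hXt _
  · simp only [p0, p2]
    exact hmono (show (0 : Fin 4) < 1 by decide)
  · simp only [p0, p1]
    exact hmono (show (1 : Fin 4) < 2 by decide)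
  · simp only [p1, p3]
    exact hmono (show (2 : Fin 4) < 3 by decide)

end Pool.Agent.H63.Jac
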